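import Mathlib
import Pool.Agent.R359.Fricke

/-!
# MP_9614a6_lc, Q1

The worst-case sparse bit size `S(n)` of the Fricke trace polynomials of words of cyclically
reduced length `n` satisfies `S(n) = Θ(n⁴)`.
-/

open Pool.Agent.R359.Fricke

namespace Pool.Agent.Results.MP_9614a6_lc.QuarticGrowth

/-- **Theorem.** Every word has exactly one Fricke trace polynomial, `S n` is the greatest sparse
bit size of the trace polynomial of a word of cyclically reduced length `n`, and `S n = Θ(n⁴)`. -/
theorem result :
    (∀ w : FreeGroup (Fin 2), ∃! f, IsFricke w f) ∧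
    (∀ n, IsGreatest {s | ∃ w f, CycLen w n ∧ IsFricke w f ∧ s = bitSize f} (S n)) ∧
    (fun n : ℕ => (S n : ℝ)) =Θ[Filter.atTop] fun n : ℕ => (n : ℝ) ^ 4 :=
  ⟨exists_unique_fricke, isGreatest, growth⟩

end Pool.Agent.Results.MP_9614a6_lc.QuarticGrowth
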